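import Mathlib
import Pool.Agent.X330.RF.Upper
import Pool.Agent.X330.RF.Contain
import Pool.Agent.X330.RF.Ramsey
import Pool.Agent.X330.RF.Lower
set_option autoImplicit false

/-!
# Minimum Ramsey number of graphs without isolated vertices (MP_624632_co, Q1)

`f n` is the minimum of `r(G)` over the graphs `G` with exactly `n` vertices and no isolated
vertex.  We prove `f n = n + (1 + o(1)) log₂ n`, the conjecture of Burr and Erdős.
-/

open Filter Topology

namespace Pool.Agent.Results.MP_624632_co.MinRamseyLog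

open SimpleGraph

/-- `N → (G, G)`: for every graph `H` on `N` vertices (the edges of the first colour), `H` or its
complement contains a subgraph isomorphic to `G`. -/
def Arrows (N : ℕ) {n : ℕ} (G : SimpleGraph (Fin n)) : Prop :=
  ∀ H : SimpleGraph (Fin N), G ⊑ H ∨ G ⊑ Hᶜ

/-- The Ramsey number `r(G)`: the least `N` with `N → (G, G)`. -/
noncomputable def ramseyNumber {n : ℕ} (G : SimpleGraph (Fin n)) : ℕ := sInf {N | Arrows N G}

/-- `G` has no isolated vertex. -/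
def NoIsolated {n : ℕ} (G : SimpleGraph (Fin n)) : Prop := ∀ v, ∃ w, G.Adj v w

/-- The minimum of `r(G)` over graphs `G` with exactly `n` vertices and no isolated vertex. -/
noncomputable def f (n : ℕ) : ℕ :=
  sInf {R | ∃ G : SimpleGraph (Fin n), NoIsolated G ∧ ramseyNumber G = R}

theorem arrows_exists {n : ℕ} (G : SimpleGraph (Fin n)) : ∃ N, Arrows N G :=
  X330.RF.ramsey_exists G

theorem arrows_ramseyNumber {n : ℕ} (G : SimpleGraph (Fin n)) : Arrows (ramseyNumber G) G :=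
  Nat.sInf_mem (s := {N | Arrows N G}) (arrows_exists G)

theorem upper (ε : ℝ) (hε : 0 < ε) : ∃ n₀ : ℕ, ∀ n ≥ n₀,
    (∃ G : SimpleGraph (Fin n), NoIsolated G) ∧
      (f n : ℝ) ≤ (n : ℝ) + (1 + ε) * Real.logb 2 n := by
  obtain ⟨n₀, hn₀⟩ := X330.RF.upper_numeric ε hε
  refine ⟨n₀, fun n hn => ?_⟩
  obtain ⟨k, x, s, hx, hsum, hs, hV⟩ := hn₀ n hn
  obtain ⟨G, hG, hcon⟩ := X330.RF.exists_forest s k n hsum hs
  refine ⟨⟨G, hG⟩, ?_⟩
  have harr : Arrows (n + x) G := by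
    intro H
    rcases hV (Fin (n + x)) H (Fintype.card_fin _) with h | h
    · exact Or.inl (hcon H h)
    · exact Or.inr (hcon Hᶜ h)
  have h1 : ramseyNumber G ≤ n + x := Nat.sInf_le harr
  have h2 : f n ≤ ramseyNumber G := Nat.sInf_le ⟨G, hG, rfl⟩
  have h3 : (f n : ℝ) ≤ ((n + x : ℕ) : ℝ) := by exact_mod_cast h2.trans h1
  push_cast at h3
  linarith

theorem lower (ε : ℝ) (hε : 0 < ε) (hε1 : ε < 1) : ∃ n₀ : ℕ, ∀ n ≥ n₀,
    (n : ℝ) + (1 - ε) * Real.logb 2 n ≤ (f n : ℝ) := by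
  obtain ⟨n₀, hn₀⟩ := X330.RF.lower ε hε hε1
  obtain ⟨n₁, hn₁⟩ := upper ε hε
  refine ⟨max n₀ n₁, fun n hn => ?_⟩
  obtain ⟨⟨G₀, hG₀⟩, -⟩ := hn₁ n ((le_max_right _ _).trans hn)
  have hne : {R | ∃ G : SimpleGraph (Fin n), NoIsolated G ∧ ramseyNumber G = R}.Nonempty :=
    ⟨_, G₀, hG₀, rfl⟩
  obtain ⟨G, hG, hr⟩ := Nat.sInf_mem hne
  have h1 := hn₀ n ((le_max_left _ _).trans hn) G hG (ramseyNumber G) (arrows_ramseyNumber G)
  have h2 : f n = ramseyNumber G := hr.symm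
  rw [h2]
  exact h1

/-- **Main theorem.** Every graph has a Ramsey number, and `(f n - n) / log₂ n → 1`. -/
theorem result :
    (∀ (n : ℕ) (G : SimpleGraph (Fin n)), ∃ N, Arrows N G) ∧
    Tendsto (fun n : ℕ => ((f n : ℝ) - n) / Real.logb 2 n) atTop (𝓝 1) := by
  refine ⟨fun n G => arrows_exists G, ?_⟩
  rw [Metric.tendsto_atTop]
  intro ε hε
  set ε' := min (ε / 2) (1 / 2) with hε'
  have hε'0 : 0 < ε' := by
    rw [hε']; exact lt_min (by linarith) (by norm_num)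
  have hε'1 : ε' < 1 := lt_of_le_of_lt (min_le_right _ _) (by norm_num)
  have hε'2 : ε' < ε := lt_of_le_of_lt (min_le_left _ _) (by linarith)
  obtain ⟨n₀, h₀⟩ := upper ε' hε'0
  obtain ⟨n₁, h₁⟩ := lower ε' hε'0 hε'1
  refine ⟨max (max n₀ n₁) 2, fun n hn => ?_⟩
  have hn0 : n₀ ≤ n := (le_max_left _ _).trans ((le_max_left _ _).trans hn)
  have hn1 : n₁ ≤ n := (le_max_right _ _).trans ((le_max_left _ _).trans hn)
  have hn2 : 2 ≤ n := (le_max_right _ _).trans hn
  have hu := (h₀ n hn0).2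
  have hl := h₁ n hn1
  have hlog : 0 < Real.logb 2 n :=
    Real.logb_pos (by norm_num) (by exact_mod_cast (show 1 < n by omega))
  rw [Real.dist_eq]
  have h1 : ((f n : ℝ) - n) / Real.logb 2 n ≤ 1 + ε' := by
    rw [div_le_iff₀ hlog]; linarith
  have h2 : 1 - ε' ≤ ((f n : ℝ) - n) / Real.logb 2 n := by
    rw [le_div_iff₀ hlog]; linarith
  have h3 : |((f n : ℝ) - n) / Real.logb 2 n - 1| ≤ ε' := by
    rw [abs_le]; constructor <;> linarith
  linarith

end Pool.Agent.Results.MP_624632_co.MinRamseyLog
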